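import Pool.Agent.P.MP_53e370_gt.S.PiMain

namespace Pool.Agent.Results.MP_53e370_gt.NonLift

open Pool.Agent.P.MP_ac4909_gt Pool.Agent.P.MP_53e370_gt.S

/-- Let `M` be the closed oriented 3-manifold obtained by surgery on the framed link `L`.  If the
fundamental group of `M` has a homomorphism to `SU(2)` modulo its centre, that is to `SO(3)`, which
does not lift to `SU(2)`, then the Kauffman bracket skein module of `M` over `ℚ(A)` has dimension
at least two. -/
theorem result {ι : Type} [Fintype ι] [DecidableEq ι] (L : List (Sl (Arc ι)))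
    (hL : IsFramedLink L)
    (ρ : Pi1 L →* Matrix.specialUnitaryGroup (Fin 2) ℂ ⧸
      Subgroup.center (Matrix.specialUnitaryGroup (Fin 2) ℂ))
    (h : ∀ σ : Pi1 L →* Matrix.specialUnitaryGroup (Fin 2) ℂ, (QuotientGroup.mk' _).comp σ ≠ ρ) :
    2 ≤ Module.rank (RatFunc ℚ) (SkeinModule L) :=
  two_le_rank_pi hL ρ h

end Pool.Agent.Results.MP_53e370_gt.NonLift
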